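import Pool.Agent.Helper45.U4.St2

/-!
# Project U4, module AVO (helper9)
-/

set_option autoImplicit false

open Module Classical
open scoped LinearAlgebra.Projectivization

namespace Pool.Agent.Helper9.U4

open Pool.Agent.Helper45.U4 Pool.Agent.Helper53.PB

section

variable {F V : Type} [Field F] [AddCommGroup V] [Module F V]

theorem eq_of_mem_span (p X : ℙ F V) (h : X.rep ∈ Submodule.span F {p.rep}) : X = p := by
  obtain ⟨c, hc⟩ := Submodule.mem_span_singleton.1 h
  rw [← X.mk_rep, ← p.mk_rep]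
  exact (Projectivization.mk_eq_mk_iff' F _ _ X.rep_nonzero p.rep_nonzero).2 ⟨c, hc⟩

theorem mem_pair {p v x : V} (h : x ∈ Submodule.span F {p, v}) : ∃ α β : F, x = α • p + β • v := by
  obtain ⟨α, β, h⟩ := Submodule.mem_span_pair.1 h
  exact ⟨α, β, h.symm⟩

theorem finrank_pair {p v : V} (hp : p ≠ 0) (hv : v ∉ Submodule.span F {p}) :
    finrank F (Submodule.span F {p, v}) = 2 := by
  have h : LinearIndependent F ![p, v] := by
    rw [LinearIndependent.pair_iff]
    intro s t hst
    by_cases ht : t = 0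
    · rw [ht, zero_smul, add_zero] at hst
      exact ⟨(smul_eq_zero.1 hst).resolve_right hp, ht⟩
    · exfalso
      apply hv
      rw [Submodule.mem_span_singleton]
      refine ⟨-(t⁻¹ * s), ?_⟩
      have h1 : t • v = -(s • p) := eq_neg_of_add_eq_zero_right hst
      calc (-(t⁻¹ * s)) • p = t⁻¹ • (-(s • p)) := by rw [smul_neg, smul_smul, neg_smul]
        _ = v := by rw [← h1, smul_smul, inv_mul_cancel₀ ht, one_smul]
  have h2 := finrank_span_eq_card h
  rw [Matrix.range_cons_cons_empty, Fintype.card_fin] at h2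
  exact h2

/-- three lines through a point of a plane -/
theorem three_lines [FiniteDimensional F V] (U : Submodule F V) (hU : finrank F U = 3) (p : V)
    (hp : p ≠ 0) (hpU : p ∈ U) :
    ∃ L : Fin 3 → Submodule F V, (∀ i, L i ≤ U ∧ p ∈ L i ∧ finrank F (L i) = 2) ∧
      ∀ i j, i ≠ j → L i ⊓ L j ≤ Submodule.span F {p} := by
  have h1 : ∃ a ∈ U, a ∉ Submodule.span F {p} := by
    by_contra hcon
    push Not at hcon
    have := Submodule.finrank_mono (show U ≤ Submodule.span F {p} from hcon)
    have h2 := finrank_span_singleton (K := F) hp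
    omega
  obtain ⟨a, haU, ha⟩ := h1
  have h2 := finrank_pair hp ha
  have h3 : ∃ b ∈ U, b ∉ Submodule.span F {p, a} := by
    by_contra hcon
    push Not at hcon
    have := Submodule.finrank_mono (show U ≤ Submodule.span F {p, a} from hcon)
    omega
  obtain ⟨b, hbU, hb⟩ := h3
  have hpp : ∀ c : F, c • p ∈ Submodule.span F ({p, a} : Set V) := fun c =>
    Submodule.smul_mem _ _ (Submodule.subset_span (by simp))
  have haa : ∀ c : F, c • a ∈ Submodule.span F ({p, a} : Set V) := fun c =>
    Submodule.smul_mem _ _ (Submodule.subset_span (by simp))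
  have hkey : ∀ c α β : F, c • b = α • p + β • a → c = 0 := by
    intro c α β h
    by_contra hc
    apply hb
    have h4 : c • b ∈ Submodule.span F ({p, a} : Set V) := by
      rw [h]; exact Submodule.add_mem _ (hpp α) (haa β)
    have h5 := Submodule.smul_mem _ c⁻¹ h4
    rwa [smul_smul, inv_mul_cancel₀ hc, one_smul] at h5
  have hkey2 : ∀ c α : F, c • a = α • p → c = 0 := by
    intro c α h
    by_contra hc
    apply ha
    have h4 : c • a ∈ Submodule.span F ({p} : Set V) := by
      rw [h]; exact Submodule.smul_mem _ _ (Submodule.mem_span_singleton_self p)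
    have h5 := Submodule.smul_mem _ c⁻¹ h4
    rwa [smul_smul, inv_mul_cancel₀ hc, one_smul] at h5
  have hb1 : b ∉ Submodule.span F {p} := by
    intro h
    obtain ⟨c, hc⟩ := Submodule.mem_span_singleton.1 h
    have := hkey 1 c 0 (by rw [one_smul, zero_smul, add_zero, hc])
    exact one_ne_zero this
  have hab : a + b ∉ Submodule.span F {p} := by
    intro h
    obtain ⟨c, hc⟩ := Submodule.mem_span_singleton.1 h
    have := hkey 1 c (-1) (by rw [one_smul, neg_smul, one_smul, hc]; abel)
    exact one_ne_zero this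
  have hle : ∀ v ∈ U, Submodule.span F {p, v} ≤ U := by
    intro v hv
    rw [Submodule.span_le]
    rintro x hx
    rcases hx with rfl | rfl
    · exact hpU
    · exact hv
  have hmem : ∀ v : V, p ∈ Submodule.span F ({p, v} : Set V) := fun v =>
    Submodule.subset_span (by simp)
  have i1 : Submodule.span F {p, a} ⊓ Submodule.span F {p, b} ≤ Submodule.span F {p} := by
    rintro x ⟨hx1, hx2⟩
    obtain ⟨α, β, rfl⟩ := mem_pair hx1
    obtain ⟨γ, δ, hx⟩ := mem_pair hx2
    have hδ : δ = 0 := by
      apply hkey δ (α - γ) β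
      have : δ • b = (α • p + β • a) - γ • p := by rw [hx]; abel
      rw [this, sub_smul]; abel
    rw [hx, hδ, zero_smul, add_zero]
    exact Submodule.smul_mem _ _ (Submodule.mem_span_singleton_self p)
  have i2 : Submodule.span F {p, a} ⊓ Submodule.span F {p, a + b} ≤ Submodule.span F {p} := by
    rintro x ⟨hx1, hx2⟩
    obtain ⟨α, β, rfl⟩ := mem_pair hx1
    obtain ⟨γ, δ, hx⟩ := mem_pair hx2
    have hδ : δ = 0 := by
      apply hkey δ (α - γ) (β - δ)
      have : δ • b = (α • p + β • a) - γ • p - δ • a := by rw [hx, smul_add]; abel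
      rw [this, sub_smul, sub_smul]; abel
    rw [hx, hδ, zero_smul, add_zero]
    exact Submodule.smul_mem _ _ (Submodule.mem_span_singleton_self p)
  have i3 : Submodule.span F {p, b} ⊓ Submodule.span F {p, a + b} ≤ Submodule.span F {p} := by
    rintro x ⟨hx1, hx2⟩
    obtain ⟨α, β, rfl⟩ := mem_pair hx1
    obtain ⟨γ, δ, hx⟩ := mem_pair hx2
    have hδ : β - δ = 0 := by
      apply hkey (β - δ) (γ - α) δ
      have : (β - δ) • b = (α • p + β • b) - α • p - δ • b := by rw [sub_smul]; abel
      rw [this, hx, smul_add, sub_smul]; abel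
    have hδ' : β = δ := sub_eq_zero.1 hδ
    have hδ0 : δ = 0 := by
      apply hkey2 δ (α - γ)
      have : δ • a = (α • p + β • b) - γ • p - δ • b := by rw [hx, smul_add]; abel
      rw [this, hδ', sub_smul]; abel
    rw [hx, hδ0, zero_smul, add_zero]
    exact Submodule.smul_mem _ _ (Submodule.mem_span_singleton_self p)
  refine ⟨![Submodule.span F {p, a}, Submodule.span F {p, b}, Submodule.span F {p, a + b}], ?_, ?_⟩
  · intro i
    fin_cases i
    · exact ⟨hle a haU, hmem a, h2⟩
    · exact ⟨hle b hbU, hmem b, finrank_pair hp hb1⟩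
    · exact ⟨hle _ (U.add_mem haU hbU), hmem _, finrank_pair hp hab⟩
  · intro i j hij
    fin_cases i <;> fin_cases j
    · exact absurd rfl hij
    · exact i1
    · exact i2
    · exact (inf_comm _ _).le.trans i1
    · exact absurd rfl hij
    · exact i3
    · exact (inf_comm _ _).le.trans i2
    · exact (inf_comm _ _).le.trans i3
    · exact absurd rfl hij

/-- two vectors, three sets with small intersections -/
theorem pick {A : Type} (L : Fin 3 → Set A) (x y : A)
    (hx : ∀ i j, i ≠ j → x ∈ L i → x ∈ L j → False)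
    (hy : ∀ i j, i ≠ j → y ∈ L i → y ∈ L j → False) : ∃ i, x ∉ L i ∧ y ∉ L i := by
  by_contra hcon
  push Not at hcon
  have h01 := hx 0 1 (by decide)
  have h02 := hx 0 2 (by decide)
  have h12 := hx 1 2 (by decide)
  have k01 := hy 0 1 (by decide)
  have k02 := hy 0 2 (by decide)
  have k12 := hy 1 2 (by decide)
  have c0 := hcon 0
  have c1 := hcon 1
  have c2 := hcon 2
  tauto

end

theorem hAVO (_h1 : StHNB) (h2 : StTHR) : StAVO := by
  intro F V _ _ _ _ _ _ φ hH p X Y hp hX hY
  have hts : φ.toPolar.TS (Submodule.span F {p.rep}) := by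
    have := (Polar.ts_bot (P := φ.toPolar)).sup_span (v := p.rep) hp (by
      intro x hx
      rw [Submodule.mem_bot] at hx
      rw [hx]
      exact Polar.zero_left _)
    rwa [bot_sup_eq] at this
  obtain ⟨U, hU, hpU⟩ := Polar.exists_gen_ge hts
  have hpU' : p.rep ∈ U := hpU (Submodule.mem_span_singleton_self _)
  obtain ⟨L, hL, hLL⟩ := three_lines U (hH.gen U hU) p.rep p.rep_nonzero hpU'
  obtain ⟨i, hi1, hi2⟩ := pick (fun i => (L i : Set V)) X.rep Y.rep
    (fun i j hij h1 h2 => hX (eq_of_mem_span p X (hLL i j hij ⟨h1, h2⟩)))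
    (fun i j hij h1 h2 => hY (eq_of_mem_span p Y (hLL i j hij ⟨h1, h2⟩)))
  have hXi : X.rep ∉ L i := hi1
  have hYi : Y.rep ∉ L i := hi2
  obtain ⟨⟨U0, U1, U2, hT⟩, -⟩ := h2 φ 3 hH (L i) (hU.1.mono (hL i).1) (by rw [(hL i).2.2])
  have e0 : L i ≤ U0 := by rw [← hT.i01]; exact inf_le_left
  have e1 : L i ≤ U1 := by rw [← hT.i01]; exact inf_le_right
  have e2 : L i ≤ U2 := by rw [← hT.i02]; exact inf_le_right
  have hint : ∀ j k : Fin 3, j ≠ k → ∀ x : V, x ∈ (![U0, U1, U2] : Fin 3 → Submodule F V) j →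
      x ∈ (![U0, U1, U2] : Fin 3 → Submodule F V) k → x ∈ L i := by
    intro j k hjk x hx hx'
    fin_cases j <;> fin_cases k
    · exact absurd rfl hjk
    · rw [← hT.i01]; exact ⟨hx, hx'⟩
    · rw [← hT.i02]; exact ⟨hx, hx'⟩
    · rw [← hT.i01]; exact ⟨hx', hx⟩
    · exact absurd rfl hjk
    · rw [← hT.i12]; exact ⟨hx, hx'⟩
    · rw [← hT.i02]; exact ⟨hx', hx⟩
    · rw [← hT.i12]; exact ⟨hx', hx⟩
    · exact absurd rfl hjk
  obtain ⟨j, hj1, hj2⟩ := pick
    (fun j => ((![U0, U1, U2] : Fin 3 → Submodule F V) j : Set V)) X.rep Y.rep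
    (fun j k hjk h1 h2 => hXi (hint j k hjk _ h1 h2))
    (fun j k hjk h1 h2 => hYi (hint j k hjk _ h1 h2))
  refine ⟨(![U0, U1, U2] : Fin 3 → Submodule F V) j, ?_, ?_, hj1, hj2⟩
  · fin_cases j
    · exact hT.g0
    · exact hT.g1
    · exact hT.g2
  · fin_cases j
    · exact e0 (hL i).2.1
    · exact e1 (hL i).2.1
    · exact e2 (hL i).2.1

end Pool.Agent.Helper9.U4
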